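import Pool.Agent.GEN.StmtsPT
import Pool.Agent.Helper92_GEN.LCK

/-!
# Row EVB of squad GEN: the operators at the tight set
-/

set_option autoImplicit false

namespace Pool.Agent.GEN.PT.H3

open Finset Pool.Agent.Helper6_Mono Pool.Agent.Helper30_Simp
  Pool.Agent.Helper30_Simp2 Pool.Agent.GEN

theorem mem_monT {σ : Type} [Fintype σ] {M : Finset (σ →₀ ℕ)} {T : Finset (Wa M)} {α : M} :
    (α : σ →₀ ℕ) ∈ monT M T ↔ Sum.inr α ∈ T := by
  unfold monT
  rw [H92.mem_filt]
  constructor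
  · rintro ⟨_, _, h'⟩
    exact h'
  · intro h
    exact ⟨α.2, α.2, h⟩

theorem monT_sub {σ : Type} [Fintype σ] {M : Finset (σ →₀ ℕ)} {T : Finset (Wa M)}
    {α : σ →₀ ℕ} (h : α ∈ monT M T) : α ∈ M := by
  unfold monT at h
  rw [H92.mem_filt] at h
  exact h.1

open scoped Classical in
/-- the block of `j` -/
noncomputable def bl {σ : Type} [Fintype σ] (M : Finset (σ →₀ ℕ)) (T : Finset (Wa M)) (j : σ) :
    Finset (Wa M) :=
  (univ.filter fun α : M => (α : σ →₀ ℕ) ∈ monT M T ∧ (α : σ →₀ ℕ) j = 1).map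
    Function.Embedding.inr

theorem mem_bl {σ : Type} [Fintype σ] {M : Finset (σ →₀ ℕ)} {T : Finset (Wa M)} {j : σ}
    {ρ : Wa M} : ρ ∈ bl M T j ↔
      ∃ α : M, (α : σ →₀ ℕ) ∈ monT M T ∧ (α : σ →₀ ℕ) j = 1 ∧ Sum.inr α = ρ := by
  unfold bl
  rw [Finset.mem_map]
  constructor
  · rintro ⟨α, hα, he⟩
    rw [H92.mem_filt] at hα
    exact ⟨α, hα.2.1, hα.2.2, he⟩
  · rintro ⟨α, h1, h2, he⟩
    exact ⟨α, (H92.mem_filt _).mpr ⟨Finset.mem_univ _, h1, h2⟩, he⟩

open scoped Classical in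
theorem evb : EvbStmt := by
  intro σ _ M A _ X T Q hQ hst
  obtain ⟨_, hsum, hocc⟩ := hst
  refine ⟨bl M T, ?_, ?_, ?_⟩
  · intro j hj
    constructor
    · obtain ⟨α, hα, h1⟩ := hocc j hj
      exact ⟨Sum.inr ⟨α, monT_sub hα⟩, mem_bl.mpr ⟨⟨α, monT_sub hα⟩, hα, h1, rfl⟩⟩
    · intro ρ hρ
      obtain ⟨α, hα, _, rfl⟩ := mem_bl.mp hρ
      exact mem_monT.mp hα
  · intro i hi j hj hij
    rw [Finset.disjoint_left]
    intro ρ hρ hρ'
    obtain ⟨α, hα, h1, rfl⟩ := mem_bl.mp hρ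
    obtain ⟨β, _, h2, he⟩ := mem_bl.mp hρ'
    have he' : β = α := Sum.inr_injective he
    rw [he'] at h2
    have hsub : ({i, j} : Finset σ) ⊆ Q := by
      intro z hz
      rw [Finset.mem_insert, Finset.mem_singleton] at hz
      rcases hz with h | h
      · rw [h]
        exact hi
      · rw [h]
        exact hj
    have h3 := Finset.sum_le_sum_of_subset (f := fun j => (α : σ →₀ ℕ) j) hsub
    rw [Finset.sum_insert (by rwa [Finset.mem_singleton]), Finset.sum_singleton, h1, h2] at h3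
    have h4 := hsum _ hα
    omega
  · intro j hj
    set b : Ideal (MvPolynomial (Wa M) A) :=
      Ideal.span {q | ∃ ρ, ρ ∉ T ∧ q = 1 - MvPolynomial.X ρ} with hb
    have hπ : ∀ ρ, ρ ∉ T → Ideal.Quotient.mk b (MvPolynomial.X ρ : MvPolynomial (Wa M) A) = 1 := by
      intro ρ hρ
      have h2 : (1 - MvPolynomial.X ρ : MvPolynomial (Wa M) A) ∈ b :=
        Ideal.subset_span ⟨ρ, hρ, rfl⟩
      rw [← Ideal.Quotient.eq_zero_iff_mem, map_sub, map_one, sub_eq_zero] at h2
      exact h2.symm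
    have hle : ∀ α : M, (α : σ →₀ ℕ) ∈ monT M T → (α : σ →₀ ℕ) j = 0 ∨ (α : σ →₀ ℕ) j = 1 := by
      intro α hα
      have h1 := hsum _ hα
      have h2 : (α : σ →₀ ℕ) j ≤ ∑ j ∈ Q, (α : σ →₀ ℕ) j :=
        Finset.single_le_sum (f := fun j => (α : σ →₀ ℕ) j) (fun _ _ => Nat.zero_le _) hj
      omega
    have key : Ideal.Quotient.mk b (Ev M A (fun i => if i = j then 1 else 0)) =
        Ideal.Quotient.mk b (∏ ρ ∈ bl M T j, MvPolynomial.X ρ) := by
      unfold Ev bl
      rw [Finset.prod_map, map_prod, map_prod, Fintype.prod_sum_type, Finset.prod_filter]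
      have e1 : ∏ i : σ, Ideal.Quotient.mk b ((MvPolynomial.X (Sum.inl i) :
          MvPolynomial (Wa M) A) ^ wv M (fun i => if i = j then 1 else 0) (Sum.inl i)) = 1 := by
        apply Finset.prod_eq_one
        intro i _
        by_cases hij : i = j
        · rw [hij, map_pow, hπ (Sum.inl j) (hQ j hj), one_pow]
        · simp only [wv]
          rw [if_neg hij, pow_zero, map_one]
      rw [e1, one_mul]
      apply Finset.prod_congr rfl
      intro α _
      have e2 : wv M (fun i => if i = j then 1 else 0) (Sum.inr α) = (α : σ →₀ ℕ) j :=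
        H92.dot_single j (α : σ →₀ ℕ)
      rw [e2, map_pow]
      by_cases hα : (α : σ →₀ ℕ) ∈ monT M T
      · rcases hle α hα with h2 | h2
        · rw [h2, pow_zero, if_neg]
          rintro ⟨_, h3⟩
          omega
        · rw [h2, pow_one, if_pos ⟨hα, rfl⟩]
          rfl
      · rw [if_neg (fun h => hα h.1), hπ (Sum.inr α) (fun h0 => hα (mem_monT.mpr h0)), one_pow]
    have e3 : (Ev M A (fun i => if i = j then 1 else 0) - MvPolynomial.C X) -
        ((∏ ρ ∈ bl M T j, MvPolynomial.X ρ) - MvPolynomial.C X) =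
        Ev M A (fun i => if i = j then 1 else 0) - ∏ ρ ∈ bl M T j, MvPolynomial.X ρ := by
      ring
    rw [e3]
    exact Ideal.Quotient.eq.mp key

end Pool.Agent.GEN.PT.H3
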